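import Pool.Agent.H62.Hts2

set_option autoImplicit false

namespace Pool.Agent.Results.MP_db6017_lc.NotW

open Pool.Agent.H62.Pk

/-- Ramsey's theorem for pairs is not Weihrauch reducible to Hindman's theorem for sums of exactly
two elements. -/
theorem result : ¬ WLe pairRep setRep RT22 colRep setRep HT22 := not_RT

end Pool.Agent.Results.MP_db6017_lc.NotW
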